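import Mathlib
import Pool.Agent.H4.VDm

set_option autoImplicit false

namespace Pool.Agent.Results.MP_c0a4b6_co.Yes

open Finset Matrix Pool.Agent.H4.VDm

theorem result {K : Type} [Field K] [CharZero K] (ν : K → WithTop ℝ) (hν : IsVal ν) (σ : K ≃+* K)
    (hσ : ∀ a, σ (σ a) = a) (hv : ∀ a, ν (σ a) = ν a) (n : ℕ)
    (B C : Matrix (Fin n) (Fin n) K) (hB : (B.map σ)ᵀ = -B) (hC : (C.map σ)ᵀ = C)
    (hr : C.rank = 1) :
    IsValDelta fun S : Finset (Fin n) =>
      ν ((B + C).submatrix (fun i : S => i.1) (fun i : S => i.1)).det := by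
  have hB' : ∀ i j, σ (B i j) = - B j i := fun i j => congrFun (congrFun hB j) i
  have hC' : ∀ i j, σ (C i j) = C j i := fun i j => congrFun (congrFun hC j) i
  obtain ⟨k, hk, hm⟩ : ∃ k, C k k ≠ 0 ∧ ∀ i j, C i j * C k k = C i k * C k j := by
    obtain ⟨⟨v, hv⟩, -, h⟩ := finrank_eq_one_iff'.1 hr
    have : ∀ j, ∃ c : K, ∀ i, C i j = c * v i := fun j => by
      obtain ⟨c, hc⟩ := h ⟨_, Pi.single j 1, rfl⟩
      exact ⟨c, fun i => by simpa using (congrFun (congrArg Subtype.val hc) i).symm⟩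
    choose y hy using this
    obtain ⟨i, j, h0⟩ : ∃ i j, C i j ≠ 0 := by
      by_contra k
      push Not at k
      rw [show C = 0 from Matrix.ext k, rank_zero] at hr
      exact zero_ne_one hr
    have h1 : C j i ≠ 0 := by rw [← hC']; simpa using h0
    rw [hy] at h0 h1
    exact ⟨i, by rw [hy]; exact mul_ne_zero (left_ne_zero_of_mul h1) (right_ne_zero_of_mul h0),
      fun a b => by simp only [hy]; ring⟩
  simp only [← mix_det]
  refine geo _ (core hν σ.toRingHom hσ hv (1 / 2) (by simp [map_ofNat]; norm_num) (B + C)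
    (fun i => C i k) (2 / C k k) (div_ne_zero two_ne_zero hk) (by simp [hC', map_ofNat]) fun i j => ?_)
  simp only [Matrix.add_apply, RingEquiv.toRingHom_eq_coe, RingHom.coe_coe, map_add, hB', hC']
  field_simp
  linear_combination 2 * hm j i

end Pool.Agent.Results.MP_c0a4b6_co.Yes
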